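import Mathlib
import Pool.Agent.X115.BZ2

/-!
# All nonreal zeros of `J_ν''` are purely imaginary for `ν = -101/100`

So the assertion that `J_ν^(n)` has exactly `4 s + 2` nonreal zeros, exactly two of them purely
imaginary, for `ν ∈ (n - 2 s - 2, n - 2 s - 1)`, fails for `n = 2`, `s = 1`.

Proof. With `μ = ν + 1`, `P = ν (ν - 1)` and `g = 0F1(; μ + 1; x)`, `x = -z²/4`, the zeros `z` of
`J_ν''` correspond to the solutions `x` of `(4 x + P) x g'(x) = ((2 - 4 μ) x - μ P) g(x)`.  Lommel's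
integral `(x - y) ∫ t^μ g(x t) g(y t) dt = x g'(x) g(y) - y g'(y) g(x)` over `[0, 1]` shows that
`(4 x + P) (4 y + P) ∫ t^μ g(x t) g(y t) dt = 2 P g(x) g(y)` for any two different solutions.  There
is a solution `q ∈ (-1/10, -1/20)`, and the Cauchy-Schwarz inequality for `q` and a nonreal solution
gives a contradiction.
-/

set_option autoImplicit false

open Finset Filter Topology Pool.Agent.X115.FCP

namespace Pool.Agent.Results.MP_f41da7_an.NoOtherNonrealZeros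

/-- The entire function `G_{ν,n}` with `J_ν^(n)(z) = z^(ν-n) G_{ν,n}(z)`. -/
noncomputable def G (ν : ℝ) (n : ℕ) (z : ℂ) : ℂ :=
  ∑' m : ℕ, (((-1) ^ m * (∏ i ∈ range n, (ν + 2 * m - i)) /
    (m.factorial * Real.Gamma (ν + m + 1) * (2 : ℝ) ^ (ν + 2 * m)) : ℝ) : ℂ) * z ^ (2 * m)

/-- `f` has exactly `N` zeros in `S`, counted with multiplicity. -/
def ExactlyZeros (f : ℂ → ℂ) (S : Set ℂ) (N : ℕ) : Prop :=
  {z | z ∈ S ∧ f z = 0}.Finite ∧ ∑ᶠ z ∈ {z | z ∈ S ∧ f z = 0}, analyticOrderNatAt f z = N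

lemma G_two {ν : ℝ} (hν : ∀ k : ℤ, ν ≠ k) {δ : ℝ} (h : Pool.Agent.X115.FCP.Sep ν δ) (z : ℂ) :
    G ν 2 z = ((1 / Real.Gamma (ν + 1) / (2 : ℝ) ^ ν : ℝ) : ℂ) *
      Pool.Agent.X115.BZ.S2 ν (-(z / 2) ^ 2) := by
  rw [← (Pool.Agent.X115.BZ.hasSum_S2 h (-(z / 2) ^ 2)).tsum_eq, ← tsum_mul_left]
  unfold G
  refine tsum_congr fun m => ?_
  have e0 : (2 : ℝ) ^ (ν + 2 * m) = (2 : ℝ) ^ ν * 2 ^ (2 * m) := by
    have : ν + 2 * (m : ℝ) = ν + ((2 * m : ℕ) : ℝ) := by push_cast; ring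
    rw [this, Real.rpow_add_natCast (by norm_num)]
  have e1 : ((-1) ^ m * (∏ i ∈ range 2, (ν + 2 * m - i)) /
      (m.factorial * Real.Gamma (ν + m + 1) * (2 : ℝ) ^ (ν + 2 * m)) : ℝ)
      = (-1) ^ m * ((1 / Real.Gamma (ν + 1) / (2 : ℝ) ^ ν) *
        ((ν + 2 * m) * (ν + 2 * m - 1) * cf ν m)) * (1 / 2) ^ (2 * m) := by
    rw [e0, prod_range_succ, range_one, prod_singleton, Nat.cast_zero, sub_zero, Nat.cast_one]
    have e3 := Pool.Agent.X115.BZ.coeff_eq hν m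
    have e4 : (-1 : ℝ) ^ m * ((ν + 2 * m) * (ν + 2 * m - 1)) /
        (m.factorial * Real.Gamma (ν + m + 1) * ((2 : ℝ) ^ ν * 2 ^ (2 * m))) =
        (-1 : ℝ) ^ m * ((ν + 2 * m) * (ν + 2 * m - 1)) *
          (1 / (m.factorial * Real.Gamma (ν + m + 1))) / (2 : ℝ) ^ ν * (1 / 2) ^ (2 * m) := by
      rw [div_pow, one_pow]
      field_simp
    rw [e4, e3]
    ring
  have e2 : (-(z / 2) ^ 2) ^ m = (-1) ^ m * ((1 / 2) ^ (2 * m) * z ^ (2 * m)) := by
    rw [neg_pow, ← pow_mul, ← mul_pow]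
    congr 2
    ring
  rw [e1, e2]
  push_cast
  ring

/-- **Main result.** For `ν = -101/100` all nonreal zeros of `J_ν''` are purely imaginary, and the
assertion of Q1 is false (`n = 2`, `s = 1`). -/
theorem result :
    (∀ z : ℂ, G (-101 / 100) 2 z = 0 → z.im ≠ 0 → z.re = 0) ∧
    ¬ ∀ (n s : ℕ) (ν : ℝ), ν ∈ Set.Ioo ((n : ℝ) - 2 * s - 2) (n - 2 * s - 1) →
      ExactlyZeros (G ν n) {z | z.im ≠ 0} (4 * s + 2) ∧
        ExactlyZeros (G ν n) {z | z.re = 0 ∧ z.im ≠ 0} 2 := by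
  have main : ∀ z : ℂ, G (-101 / 100) 2 z = 0 → z.im ≠ 0 → z.re = 0 := by
    intro z hz him
    have hν : ∀ k : ℤ, (-101 / 100 : ℝ) ≠ k := by
      intro k hk
      have a1 : (-2 : ℝ) < k := by rw [← hk]; norm_num
      have a2 : (k : ℝ) < -1 := by rw [← hk]; norm_num
      have a3 : -2 < k := by exact_mod_cast a1
      have a4 : k < -1 := by exact_mod_cast a2
      omega
    have hs : Pool.Agent.X115.FCP.Sep (-101 / 100) (1 / 100) := by
      refine ⟨by norm_num, fun i => ?_⟩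
      rcases Nat.eq_zero_or_pos i with h | h
      · rw [h]; norm_num
      · have : (1 : ℝ) ≤ i := by exact_mod_cast h
        rw [abs_of_pos (by linarith)]; linarith
    rw [G_two hν hs] at hz
    have h3 : ((1 / Real.Gamma (-101 / 100 + 1) / (2 : ℝ) ^ (-101 / 100 : ℝ) : ℝ) : ℂ) ≠ 0 := by
      have h4 := Pool.Agent.X115.BZ.gamma_ne hν
      have h5 : (2 : ℝ) ^ (-101 / 100 : ℝ) ≠ 0 := (Real.rpow_pos_of_pos (by norm_num) _).ne'
      exact_mod_cast div_ne_zero (one_div_ne_zero h4) h5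
    have h4 : Pool.Agent.X115.BZ.S2 (-101 / 100) (-(z / 2) ^ 2) = 0 := by
      rcases mul_eq_zero.1 hz with h | h
      · exact absurd h h3
      · exact h
    have h5 := Pool.Agent.X115.BZ.real_two h4
    have e2 : (-(z / 2) ^ 2).im = -(z.re * z.im / 2) := by
      simp only [Complex.neg_im, sq, Complex.mul_im, Complex.div_ofNat_re, Complex.div_ofNat_im]
      ring
    rw [e2] at h5
    have h6 : z.re * z.im = 0 := by linarith
    rcases mul_eq_zero.1 h6 with h | h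
    · exact h
    · exact absurd h him
  refine ⟨main, fun H => ?_⟩
  obtain ⟨⟨-, h2⟩, ⟨-, h3⟩⟩ := H 2 1 (-101 / 100) (by push_cast; constructor <;> norm_num)
  have h4 : {z : ℂ | z ∈ {z : ℂ | z.im ≠ 0} ∧ G (-101 / 100) 2 z = 0} =
      {z : ℂ | z ∈ {z : ℂ | z.re = 0 ∧ z.im ≠ 0} ∧ G (-101 / 100) 2 z = 0} := by
    ext z
    simp only [Set.mem_ofPred_eq]
    constructor
    · rintro ⟨h5, h6⟩
      exact ⟨⟨main z h6 h5, h5⟩, h6⟩
    · rintro ⟨⟨-, h5⟩, h6⟩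
      exact ⟨h5, h6⟩
  rw [h4, h3] at h2
  norm_num at h2

end Pool.Agent.Results.MP_f41da7_an.NoOtherNonrealZeros
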